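import Pool.Agent.Lib.MP_d81181_an.Trans

/-!
A locally compact quantum group with a two-dimensional unitary corepresentation of its reduced
C*-algebra whose transpose is not invertible.
-/

open Pool.Agent.Lib.MP_d81181_an

namespace Pool.Agent.Results.MP_d81181_an.NotAdmissible

theorem result :
    ∃ (H : Type) (_ : NormedAddCommGroup H) (_ : InnerProductSpace ℂ H) (_ : CompleteSpace H),
      KV.HasNonAdmissible H :=
  ⟨BH, inferInstance, inferInstance, inferInstance, kv_main⟩

end Pool.Agent.Results.MP_d81181_an.NotAdmissible
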